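import Pool.Agent.N202.NC.Stm

/-!
# NC/HD: conversion of polarised Hodge structures in coordinates to `HData`

(Adapted from `Pool.Agent.N202.TB.exists_hdata2` and `Pool.Agent.N996.BP.IsPHS.exists_hdata`.)
-/

set_option linter.unusedSectionVars false

namespace Pool.Agent.N490.NC

open Matrix ComplexConjugate
open Pool.Agent.N996.BP Pool.Agent.N202.NC
open Pool.Agent.N202.CF (matL)

variable {ι : Type} [Fintype ι] [DecidableEq ι]

/-- real matrices as complex matrices -/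
def cRm {m n : Type*} (M : Matrix m n ℝ) : Matrix m n ℂ := M.map fun x : ℝ => (x : ℂ)

lemma cRm_mul {m n p : Type*} [Fintype n] (M : Matrix m n ℝ) (N : Matrix n p ℝ) :
    cRm (M * N) = cRm M * cRm N := by
  ext i j
  simp [cRm, Matrix.mul_apply]

lemma cRm_one : cRm (1 : Matrix ι ι ℝ) = 1 := by
  ext i j
  rw [cRm, Matrix.map_apply, Matrix.one_apply, Matrix.one_apply]
  split_ifs <;> simp

lemma cRm_cQ {m n : Type*} (M : Matrix m n ℚ) : cRm (M.map fun x : ℚ => (x : ℝ)) = cQ M := by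
  ext i j
  simp [cRm, cQ]

lemma cRm_inj {m n : Type*} {M N : Matrix m n ℝ} (h : cRm M = cRm N) : M = N := by
  ext i j
  have := congrFun (congrFun h i) j
  exact Complex.ofReal_injective this

lemma cRm_dot (u v : ι → ℝ) (S : Matrix ι ι ℝ) :
    (fun i => (u i : ℂ)) ⬝ᵥ (cRm S *ᵥ fun i => (v i : ℂ)) = ((u ⬝ᵥ (S *ᵥ v) : ℝ) : ℂ) := by
  simp [dotProduct, Matrix.mulVec, cRm]

/-- A positive definite real matrix has an invertible square root. -/
lemma exists_sqrt' {S : Matrix ι ι ℝ} (hs : ∀ u v, u ⬝ᵥ (S *ᵥ v) = v ⬝ᵥ (S *ᵥ u))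
    (hp : ∀ u, u ≠ 0 → 0 < u ⬝ᵥ (S *ᵥ u)) : ∃ M Mi : Matrix ι ι ℝ, M * Mi = 1 ∧ Mᵀ * M = S := by
  open scoped MatrixOrder in
  have hS : S.PosDef := by
    refine Matrix.PosDef.of_dotProduct_mulVec_pos ?_ ?_
    · ext i j
      have := hs (Pi.single i 1) (Pi.single j 1)
      rw [Matrix.mulVec_single_one, Matrix.mulVec_single_one, single_one_dotProduct,
        single_one_dotProduct] at this
      rw [Matrix.conjTranspose_apply]
      exact this.symm
    · intro x hx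
      exact hp x hx
  obtain ⟨M, hM⟩ := CStarAlgebra.nonneg_iff_eq_star_mul_self.mp hS.posSemidef.nonneg
  have h1 : IsUnit (Mᵀ * M) := by
    have : Mᵀ * M = S := by
      rw [hM]
      rfl
    rw [this]
    exact hS.isUnit
  have h2 : IsUnit M.det := by
    rw [Matrix.isUnit_iff_isUnit_det, Matrix.det_mul] at h1
    exact isUnit_of_mul_isUnit_right h1
  exact ⟨M, M⁻¹, Matrix.mul_nonsing_inv M h2, hM.symm⟩

section gg

variable (P : HodgeStructure ι)

/-- diagonal operators -/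
noncomputable def gg (f : ℤ → ℂ) : Matrix ι ι ℂ := ∑ k ∈ Finset.Icc (-P.w : ℤ) P.w, f k • P.π k

lemma sum_neg' {M : Type*} [AddCommMonoid M] (w : ℕ) (f : ℤ → M) :
    ∑ k ∈ Finset.Icc (-w : ℤ) w, f (-k) = ∑ k ∈ Finset.Icc (-w : ℤ) w, f k := by
  refine Finset.sum_nbij' (fun k => -k) (fun k => -k) ?_ ?_ ?_ ?_ ?_
  · intro a ha; rw [Finset.mem_Icc] at *; omega
  · intro a ha; rw [Finset.mem_Icc] at *; omega
  · intro a _; simp
  · intro a _; simp
  · intro a _; rfl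

lemma gg_one : gg P (fun _ => 1) = 1 := by
  rw [gg, ← P.sum_π]
  exact Finset.sum_congr rfl fun k _ => by rw [one_smul]

lemma gg_mul (f h : ℤ → ℂ) : gg P f * gg P h = gg P (fun k => f k * h k) := by
  rw [gg, gg, gg, Finset.sum_mul_sum]
  refine Finset.sum_congr rfl fun k hk => ?_
  rw [Finset.sum_eq_single k]
  · rw [Matrix.smul_mul, Matrix.mul_smul, P.π_mul, if_pos rfl, smul_smul]
  · intro m _ hne
    rw [Matrix.smul_mul, Matrix.mul_smul, P.π_mul, if_neg (Ne.symm hne), smul_zero, smul_zero]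
  · intro h; exact absurd hk h

lemma gg_conj (f : ℤ → ℂ) : (gg P f).map conj = gg P (fun k => conj (f (-k))) := by
  rw [gg, gg, ← sum_neg' P.w fun k => conj (f (-k)) • P.π k]
  ext i j
  rw [Matrix.map_apply, Matrix.sum_apply, map_sum, Matrix.sum_apply]
  refine Finset.sum_congr rfl fun k _ => ?_
  rw [Matrix.smul_apply, Matrix.smul_apply, ← P.π_conj k, smul_eq_mul, map_mul, neg_neg]
  rfl

lemma gg_tr (f : ℤ → ℂ) : (gg P f)ᵀ * cQ P.ψ = cQ P.ψ * gg P (fun k => f (-k)) := by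
  rw [gg, gg, Matrix.transpose_sum, Finset.sum_mul, Finset.mul_sum,
    ← sum_neg' P.w fun k => cQ P.ψ * f (-k) • P.π k]
  refine Finset.sum_congr rfl fun k _ => ?_
  have h1 : (P.π k)ᵀ * cQ P.ψ = cQ P.ψ * P.π (-k) := P.ψ_π k
  rw [Matrix.transpose_smul, Matrix.smul_mul, h1, Matrix.mul_smul, neg_neg]

lemma π_o' (k : ℤ) : P.π k *ᵥ Pi.single P.o 1 = if k = 0 then Pi.single P.o 1 else 0 := by
  conv_lhs => rw [← P.π_o, Matrix.mulVec_mulVec, P.π_mul]
  split_ifs with h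
  · rw [h]; exact P.π_o
  · rw [Matrix.zero_mulVec]

lemma gg_col (t : ℂ) (i : ι) : gg P (fun k => t ^ k) i P.o = if i = P.o then 1 else 0 := by
  have h1 : gg P (fun k => t ^ k) *ᵥ Pi.single P.o 1 = Pi.single P.o 1 := by
    rw [gg, Matrix.sum_mulVec, Finset.sum_eq_single 0]
    · rw [Matrix.smul_mulVec, π_o', if_pos rfl, zpow_zero, one_smul]
    · intro k _ hk
      rw [Matrix.smul_mulVec, π_o', if_neg hk, smul_zero]
    · intro h
      exact absurd (Finset.mem_Icc.2 ⟨by omega, by omega⟩) h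
  have h2 := congrFun h1 i
  rw [Matrix.mulVec_single_one, Pi.single_apply] at h2
  exact h2

/-- the positivity -/
lemma pos_term (k : ℤ) (z : ι → ℂ) : ∃ ρ : ℝ,
    Complex.I ^ k * ((P.π k *ᵥ z) ⬝ᵥ (cQ P.ψ *ᵥ fun i => conj (z i))) = ρ ∧ 0 ≤ ρ ∧
      (P.π k *ᵥ z ≠ 0 → 0 < ρ) := by
  have h1 : (fun i => conj ((P.π k *ᵥ z) i)) = P.π (-k) *ᵥ fun i => conj (z i) := by
    rw [← P.π_conj k]
    funext i
    simp only [Matrix.mulVec, dotProduct, map_sum, map_mul, Matrix.map_apply]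
  have h2 : P.π k *ᵥ (P.π k *ᵥ z) = P.π k *ᵥ z := by
    rw [Matrix.mulVec_mulVec, P.π_mul, if_pos rfl]
  have h3 : (P.π k *ᵥ z) ⬝ᵥ (cQ P.ψ *ᵥ fun i => conj (z i)) =
      (P.π k *ᵥ z) ⬝ᵥ (cQ P.ψ *ᵥ fun i => conj ((P.π k *ᵥ z) i)) := by
    have h4 : cQ P.ψ * P.π (-k) = (P.π k)ᵀ * cQ P.ψ := (P.ψ_π k).symm
    rw [h1, Matrix.mulVec_mulVec, h4, ← Matrix.mulVec_mulVec,
      Matrix.dotProduct_mulVec (P.π k *ᵥ z) (P.π k)ᵀ, Matrix.vecMul_transpose, h2]
  by_cases h0 : P.π k *ᵥ z = 0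
  · exact ⟨0, by rw [h0, zero_dotProduct, mul_zero]; simp, le_rfl, fun h => absurd h0 h⟩
  · obtain ⟨r, hr, hr2⟩ := P.pos k _ h2 h0
    refine ⟨r, ?_, hr.le, fun _ => hr⟩
    rw [h3]
    exact hr2

lemma pos_sum (z : ι → ℂ) : ∃ ρ : ℝ,
    (fun i => conj (z i)) ⬝ᵥ (((cQ P.ψ)ᵀ * gg P (fun k => Complex.I ^ k)) *ᵥ z) = ρ ∧ (z ≠ 0 → 0 < ρ) := by
  choose ρ h1 h2 h3 using fun k => pos_term P k z
  refine ⟨∑ k ∈ Finset.Icc (-P.w : ℤ) P.w, ρ k, ?_, fun hz => ?_⟩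
  · rw [← Matrix.mulVec_mulVec, Matrix.mulVec_transpose, dotProduct_comm, ← Matrix.dotProduct_mulVec, gg,
      Matrix.sum_mulVec, sum_dotProduct, Complex.ofReal_sum]
    refine Finset.sum_congr rfl fun k _ => ?_
    rw [Matrix.smul_mulVec, smul_dotProduct, smul_eq_mul, h1]
  · have h4 : ∃ k ∈ Finset.Icc (-P.w : ℤ) P.w, P.π k *ᵥ z ≠ 0 := by
      by_contra hcon
      push Not at hcon
      apply hz
      rw [← Matrix.one_mulVec z, ← P.sum_π, Matrix.sum_mulVec]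
      exact Finset.sum_eq_zero hcon
    obtain ⟨k, hk, hne⟩ := h4
    exact Finset.sum_pos' (fun k _ => h2 k) ⟨k, hk, h3 k hne⟩

end gg

theorem HD_ : S_HD := by
  intro ι _ _ P
  classical
  obtain ⟨d, hd⟩ : ∃ d, d = P.w := ⟨_, rfl⟩
  -- the Weil operator
  have hIr : ∀ n : ℤ, conj (Complex.I ^ (-n)) = Complex.I ^ n := by
    intro n
    rw [map_zpow₀, Complex.conj_I, _root_.zpow_neg, ← _root_.inv_zpow, inv_neg, Complex.inv_I,
      neg_neg]
  have hreal : ∀ f : ℤ → ℂ, (∀ n, conj (f (-n)) = f n) →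
      cRm ((gg P f).map Complex.re) = gg P f := by
    intro f hf
    ext i j
    have h1 := congrFun (congrFun (gg_conj P f) i) j
    have h2 : (fun k => conj (f (-k))) = f := funext hf
    rw [h2, Matrix.map_apply] at h1
    rw [cRm, Matrix.map_apply, Matrix.map_apply]
    exact Complex.conj_eq_iff_re.1 h1
  obtain ⟨C, hC⟩ : ∃ C : Matrix ι ι ℝ, cRm C = gg P (fun k => Complex.I ^ k) :=
    ⟨_, hreal _ hIr⟩
  obtain ⟨Ci, hCi⟩ : ∃ Ci : Matrix ι ι ℝ, cRm Ci = gg P (fun k => Complex.I ^ (-k)) :=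
    ⟨_, hreal _ fun n => by rw [hIr]⟩
  have hCC : C * Ci = 1 := by
    apply cRm_inj
    rw [cRm_mul, hC, hCi, gg_mul, cRm_one, ← gg_one P]
    congr 1
    funext k
    rw [← zpow_add₀ Complex.I_ne_zero, add_neg_cancel, zpow_zero]
  obtain ⟨P', hP'⟩ : ∃ P' : Matrix ι ι ℝ, P' = P.ψ.map fun x : ℚ => (x : ℝ) := ⟨_, rfl⟩
  obtain ⟨S', hS'⟩ : ∃ S' : Matrix ι ι ℝ, S' = P'ᵀ * C := ⟨_, rfl⟩
  have hcS : cRm S' = (cQ P.ψ)ᵀ * cRm C := by
    rw [hS', cRm_mul, ← cRm_cQ P.ψ, ← hP']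
    rfl
  -- positivity
  have hpos : ∀ z : ι → ℂ, ∃ ρ : ℝ, (fun i => conj (z i)) ⬝ᵥ (cRm S' *ᵥ z) = ρ ∧
      (z ≠ 0 → 0 < ρ) := by
    intro z
    rw [hcS, hC]
    exact pos_sum P z
  have hposr : ∀ u : ι → ℝ, u ≠ 0 → 0 < u ⬝ᵥ (S' *ᵥ u) := by
    intro u hu
    obtain ⟨ρ, h1, h2⟩ := hpos fun i => (u i : ℂ)
    have h3 : (fun i => (u i : ℂ)) ≠ 0 := by
      intro h0
      apply hu
      ext i
      have := congrFun h0 i
      exact Complex.ofReal_eq_zero.1 this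
    have h4 : (fun i => conj ((u i : ℂ))) = fun i => (u i : ℂ) := by
      ext i; rw [Complex.conj_ofReal]
    rw [h4, cRm_dot] at h1
    have h5 : u ⬝ᵥ (S' *ᵥ u) = ρ := by exact_mod_cast h1
    rw [h5]
    exact h2 h3
  have hsym : ∀ u v : ι → ℝ, u ⬝ᵥ (S' *ᵥ v) = v ⬝ᵥ (S' *ᵥ u) := by
    intro u v
    obtain ⟨ρ, h1, -⟩ := hpos ((fun i => (u i : ℂ)) + Complex.I • fun i => (v i : ℂ))
    have h2 : (fun i => conj (((fun i => (u i : ℂ)) + Complex.I • fun i => (v i : ℂ)) i)) =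
        (fun i => (u i : ℂ)) - Complex.I • fun i => (v i : ℂ) := by
      ext i
      simp [sub_eq_add_neg]
    rw [h2, Matrix.mulVec_add, Matrix.mulVec_smul, sub_dotProduct, dotProduct_add,
      dotProduct_add, smul_dotProduct, smul_dotProduct, dotProduct_smul, dotProduct_smul, cRm_dot,
      cRm_dot, cRm_dot, cRm_dot] at h1
    have h3 := congrArg Complex.im h1
    simp only [smul_eq_mul, Complex.sub_im, Complex.add_im, Complex.ofReal_im, Complex.mul_im,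
      Complex.I_re, Complex.I_im, Complex.ofReal_re, Complex.mul_re] at h3
    linarith
  -- the normalisation
  have hoo : 0 < P.ψ P.o P.o := by
    obtain ⟨r, hr, h1⟩ := P.pos 0 (Pi.single P.o 1) P.π_o (by
      intro h0
      have := congrFun h0 P.o
      simp at this)
    have h2 : (fun i => conj ((Pi.single P.o 1 : ι → ℂ) i)) = (Pi.single P.o 1 : ι → ℂ) := by
      funext i
      rw [Pi.single_apply]
      split_ifs <;> simp
    rw [h2, zpow_zero, one_mul, Matrix.mulVec_single_one, single_one_dotProduct] at h1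
    have h3 : ((P.ψ P.o P.o : ℚ) : ℂ) = r := h1
    have h5 : ((P.ψ P.o P.o : ℚ) : ℝ) = r := by exact_mod_cast h3
    rw [← h5] at hr
    exact_mod_cast hr
  obtain ⟨Qr, hQr⟩ : ∃ Qr : Matrix ι ι ℚ, Qr = (P.ψ P.o P.o)⁻¹ • P.ψᵀ := ⟨_, rfl⟩
  obtain ⟨Q, hQ⟩ : ∃ Q : Matrix ι ι ℝ, Q = Qr.map fun x : ℚ => (x : ℝ) := ⟨_, rfl⟩
  have hQP : Q = ((P.ψ P.o P.o : ℚ) : ℝ)⁻¹ • P'ᵀ := by
    ext i j
    rw [hQ, hQr, hP']
    simp
  have hQC : Q * C = ((P.ψ P.o P.o : ℚ) : ℝ)⁻¹ • S' := by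
    rw [hQP, hS', Matrix.smul_mul]
  have hc : (0 : ℝ) < ((P.ψ P.o P.o : ℚ) : ℝ)⁻¹ := by
    rw [inv_pos]
    exact_mod_cast hoo
  obtain ⟨M, Mi, hM, hMS⟩ := exists_sqrt' (S := Q * C)
    (fun u v => by
      rw [hQC, Matrix.smul_mulVec, Matrix.smul_mulVec, dotProduct_smul, dotProduct_smul, hsym])
    (fun u hu => by
      rw [hQC, Matrix.smul_mulVec, dotProduct_smul, smul_eq_mul]
      exact mul_pos hc (hposr u hu))
  -- the inverse of the form
  have hdet : Qr.det ≠ 0 := by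
    intro h0
    have h1 : (Q * C).det = 0 := by
      rw [Matrix.det_mul, hQ]
      have h2 : (Qr.map fun x : ℚ => (x : ℝ)).det = ((Qr.det : ℚ) : ℝ) := by
        have := (RingHom.map_det (Rat.castHom ℝ) Qr).symm
        exact this
      rw [h2, h0]
      simp
    rw [← hMS, Matrix.det_mul, Matrix.det_transpose, mul_self_eq_zero] at h1
    have h2 := congrArg Matrix.det hM
    rw [Matrix.det_mul, h1, zero_mul, Matrix.det_one] at h2
    exact zero_ne_one h2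
  have hQQ : Qr * Qr⁻¹ = 1 := Matrix.mul_nonsing_inv Qr (isUnit_iff_ne_zero.2 hdet)
  -- the form and the diagonal operators
  have hQr2 : cQ Qr = ((P.ψ P.o P.o : ℚ) : ℂ)⁻¹ • (cQ P.ψ)ᵀ := by
    ext i j
    rw [hQr]
    simp [cQ]
  have hform : ∀ f : ℤ → ℂ, (gg P f)ᵀ * cQ Qr = cQ Qr * gg P (fun k => f (-k)) := by
    intro f
    have h1 := congrArg Matrix.transpose (gg_tr P (fun k => f (-k)))
    rw [Matrix.transpose_mul, Matrix.transpose_mul, Matrix.transpose_transpose] at h1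
    simp only [neg_neg] at h1
    rw [hQr2, Matrix.mul_smul, Matrix.smul_mul, h1]
  have hlt : ∀ t : ℂ, lt P.w P.π t = gg P (fun k => t ^ k) := fun t => rfl
  have hcol : ∀ t : ℂ, ∀ i, gg P (fun k => t ^ k) i P.o = if i = P.o then 1 else 0 := gg_col P
  have hQoo : Qr P.o P.o = 1 := by
    rw [hQr, Matrix.smul_apply, Matrix.transpose_apply, smul_eq_mul, inv_mul_cancel₀ hoo.ne']
  have hCQC : Cᵀ * Q * C = Q := by
    apply cRm_inj
    rw [cRm_mul, cRm_mul, hQ, cRm_cQ]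
    have h1 : cRm Cᵀ = (gg P (fun k => Complex.I ^ k))ᵀ := by
      rw [← hC]
      rfl
    rw [h1, hC, hform, Matrix.mul_assoc, gg_mul]
    have h2 : (fun k : ℤ => Complex.I ^ (-k) * Complex.I ^ k) = fun _ => 1 := by
      funext k
      rw [← zpow_add₀ Complex.I_ne_zero, neg_add_cancel, zpow_zero]
    rw [h2, gg_one, Matrix.mul_one]
  refine ⟨{
    D := {
      Q := Q
      Qi := (Qr⁻¹).map fun x : ℚ => (x : ℝ)
      C := C
      Ci := Ci
      M := M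
      Mi := Mi
      o := P.o
      hQ := ?_
      hC := hCC
      hM := hM
      hS := hMS
      hCQ := hCQC
      ho := ?_
      hCo := ?_ }
    Qr := Qr
    Qir := Qr⁻¹
    w := P.w
    π := P.π
    hQr := hQ
    hQir := rfl
    h1 := P.sum_π
    hmul := fun k _ l _ => P.π_mul k l
    hπQ := ?_
    hconj := fun k _ => P.π_conj k
    hC := ?_
    ho := ?_ }, fun t => rfl, rfl, fun k _ => rfl, ⟨(P.ψ P.o P.o)⁻¹, inv_ne_zero hoo.ne', hQr⟩⟩
  · apply cRm_inj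
    rw [cRm_mul, hQ, cRm_cQ, cRm_cQ, ← cQ_mul, hQQ, cQ_one, cRm_one]
  · rw [hQ, Matrix.map_apply, hQoo]; simp
  · intro i
    have h1 := hcol Complex.I i
    rw [← hC, cRm, Matrix.map_apply] at h1
    have h2 : (C i P.o : ℂ) = (((if i = P.o then 1 else 0 : ℝ)) : ℂ) := by
      rw [h1]
      split_ifs <;> simp
    exact_mod_cast h2
  · intro k _
    have h1 := congrArg Matrix.transpose (P.ψ_π (-k))
    rw [Matrix.transpose_mul, Matrix.transpose_mul, Matrix.transpose_transpose, neg_neg] at h1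
    have h2 : (cQ P.ψ)ᵀ * P.π (-k) = (P.π k)ᵀ * (cQ P.ψ)ᵀ := h1
    rw [hQr2, Matrix.mul_smul, Matrix.smul_mul, h2]
  · rw [hlt]
    exact hC
  · intro t _ i
    rw [hlt]
    exact hcol t i

end Pool.Agent.N490.NC
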